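import Pool.Agent.helper32.PN.Spec

set_option autoImplicit false

/-! Row `pn:BADB`: bound for the exponent. -/

namespace Pool.Agent.PN

open Module Polynomial Pool.Agent.helper27.PC

theorem BADB_last : ∀ (k : ℕ) (S₀ S : St), S ∈ ends (k + 1) S₀ →
    ∃ S' ∈ ends k S₀, ∃ l ∈ addable 1 S', S = move 1 S' l := by
  intro k
  induction k with
  | zero =>
    intro S₀ S hS
    obtain ⟨l, hl, h⟩ := Finset.mem_biUnion.1 hS
    exact ⟨S₀, Finset.mem_singleton_self _, l, hl, Finset.mem_singleton.1 h⟩
  | succ k ih =>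
    intro S₀ S hS
    obtain ⟨l, hl, h⟩ := Finset.mem_biUnion.1 hS
    obtain ⟨S', hS', l', hl', h'⟩ := ih _ _ h
    exact ⟨S', Finset.mem_biUnion.2 ⟨l, hl, hS'⟩, l', hl', h'⟩

theorem BADB_good (m : ℕ) : ∀ (k : ℕ) (S : St), S ∈ ends k (vac m) → SD_Good m k S := by
  intro k
  induction k with
  | zero =>
    intro S hS
    rw [Finset.mem_singleton.1 hS]
    exact SD_good_vac m
  | succ k ih =>
    intro S hS
    obtain ⟨S', hS', l, hl, rfl⟩ := BADB_last k _ _ hS
    exact SD_good_move (ih S' hS') hl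

theorem BADB_add {S : St} {l : Lab} (hl : l ∈ addable 1 S) :
    l ∈ S ∧ (l.1, l.2 + 1) ∉ S :=
  Finset.mem_filter.1 hl

/-- the potential after one step -/
theorem BADB_pt (t : Bool) (m : ℕ) (S : St) (l : Lab) (hl : l ∈ addable 1 S) :
    pt t m (move 1 S l) = pt t m S + 2 * ((l.2 : ℤ) + 1 - m + tb t l.1) := by
  obtain ⟨h1, h2⟩ := BADB_add hl
  unfold pt move up
  rw [Finset.sum_insert (fun h => h2 (Finset.mem_of_mem_erase h)),
    ← Finset.add_sum_erase S _ h1]
  push_cast
  ring

/-- the exponent, doubled -/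
def BADB_E (t : Bool) (m k : ℕ) (S : St) : ℤ := (k : ℤ) * (k - 1) + pt t m S - pt t m (vac m)

theorem BADB_E_step (t : Bool) (m k : ℕ) (S : St) (l : Lab) (hl : l ∈ addable 1 S) :
    BADB_E t m (k + 1) (move 1 S l) =
      BADB_E t m k S + 2 * ((k : ℤ) + l.2 + 1 - m + tb t l.1) := by
  unfold BADB_E
  rw [BADB_pt t m S l hl]
  push_cast
  ring

theorem BADB_mem {S : St} {l x : Lab} : x ∈ move 1 S l ↔ x = (l.1, l.2 + 1) ∨ (x ≠ l ∧ x ∈ S) := by
  unfold move up
  rw [Finset.mem_insert, Finset.mem_erase]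

/-- two holes: the content of a box outside the column -/
theorem BADB_two (m k h q : ℕ) (S : St) (s b : Bool) (hS : SD_Good m k S) (h1 : (s, h) ∉ S)
    (h2 : (b, q) ∉ S) (hne : (s, h) ≠ (b, q)) : 2 * m ≤ k + h + q := by
  have g1 : h ∉ SD_pos s S := fun h' => h1 (SD_mem_pos.1 h')
  have g2 : q ∉ SD_pos b S := fun h' => h2 (SD_mem_pos.1 h')
  obtain ⟨hc, hsum⟩ := hS
  by_cases hb : b = s
  · subst hb
    have hq : h ≠ q := fun e => hne (by rw [e])
    have e1 := SD_minsum (insert h (insert q (SD_pos b S)))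
    have e2 : h ∉ insert q (SD_pos b S) := by
      rw [Finset.mem_insert]
      rintro (h' | h')
      · exact hq h'
      · exact g1 h'
    rw [Finset.card_insert_of_notMem e2, Finset.card_insert_of_notMem g2, Finset.sum_range_succ,
      Finset.sum_range_succ, Finset.sum_insert e2, Finset.sum_insert g2, hc] at e1
    have e3 := SD_minsum (SD_pos (!b) S)
    rw [hc] at e3
    cases b <;> simp only [Bool.not_true, Bool.not_false] at e3 <;> omega
  · have e1 := SD_minsum2 g1
    have e2 := SD_minsum2 g2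
    rw [hc] at e1 e2
    cases b <;> cases s
    · exact absurd rfl hb
    · omega
    · omega
    · exact absurd rfl hb

/-- (1) -/
theorem BADB_one (t : Bool) (m : ℕ) : ∀ (k : ℕ) (S : St), S ∈ ends k (vac m) → ∀ (s : Bool) (h : ℕ),
    (s, h) ∉ S → (∀ p < h, (s, p) ∈ S) →
    2 * ((m : ℤ) - h) * (k - (m - h)) ≤ BADB_E t m k S := by
  intro k
  induction k with
  | zero =>
    intro S hS s h h1 h2
    have hv : S = vac m := Finset.mem_singleton.1 hS
    subst hv
    have e1 : m ≤ h := by
      by_contra hlt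
      exact h1 (Finset.mem_product.2 ⟨Finset.mem_univ _, Finset.mem_range.2 (by omega)⟩)
    have e2 : h ≤ m := by
      by_contra hlt
      have := h2 m (by omega)
      exact lt_irrefl m (Finset.mem_range.1 (Finset.mem_product.1 this).2)
    have e3 : h = m := le_antisymm e2 e1
    subst e3
    unfold BADB_E
    simp
  | succ k ih =>
    intro S hS s h h1 h2
    obtain ⟨S', hS', l, hl, rfl⟩ := BADB_last k _ _ hS
    obtain ⟨hlS, hlu⟩ := BADB_add hl
    rw [BADB_E_step t m k S' l hl]
    have htb : (0 : ℤ) ≤ tb t l.1 := Int.natCast_nonneg _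
    by_cases hsl : (s, h) = l
    · -- the new box is the last box of the column
      subst hsl
      have e1 : ∀ p < h + 1, (s, p) ∈ S' := by
        intro p hp
        rcases Nat.lt_succ_iff_lt_or_eq.1 hp with h' | h'
        · have := BADB_mem.1 (h2 p h')
          rcases this with h3 | h3
          · have h4 : p = h + 1 := congrArg Prod.snd h3
            omega
          · exact h3.2
        · rw [h']; exact hlS
      have e2 := ih S' hS' s (h + 1) hlu e1
      push_cast at e2 ⊢
      simp only at htb ⊢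
      nlinarith
    · have e1 : (s, h) ∉ S' := fun h' => h1 (BADB_mem.2 (Or.inr ⟨hsl, h'⟩))
      have e0 : (s, h) ≠ (l.1, l.2 + 1) := fun h' => h1 (BADB_mem.2 (Or.inl h'))
      have e2 : ∀ p < h, (s, p) ∈ S' := by
        intro p hp
        rcases BADB_mem.1 (h2 p hp) with h3 | h3
        · exfalso
          have h4 : s = l.1 := congrArg Prod.fst h3
          have h5 : p = l.2 + 1 := congrArg Prod.snd h3
          have h6 := BADB_mem.1 (h2 l.2 (by omega))
          rw [h4] at h6
          rcases h6 with h7 | h7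
          · have := congrArg Prod.snd h7
            simp only at this
            omega
          · exact h7.1 rfl
        · exact h3.2
      have e3 := ih S' hS' s h e1 e2
      have e4 := BADB_two m k h (l.2 + 1) S' s l.1 (BADB_good m k S' hS') e1 hlu e0
      have e5 : (2 : ℤ) * m ≤ k + h + (l.2 + 1) := by exact_mod_cast e4
      push_cast at e3 ⊢
      nlinarith

/-- (2) -/
theorem BADB_low (t : Bool) (m J : ℕ) : ∀ (k : ℕ) (S : St), S ∈ ends k (vac m) →
    (∀ (s : Bool) (p : ℕ), p + J < m → (s, p) ∈ S) →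
    (k : ℤ) * (k + 1 - 2 * J) ≤ BADB_E t m k S := by
  intro k
  induction k with
  | zero =>
    intro S hS _
    have hv : S = vac m := Finset.mem_singleton.1 hS
    subst hv
    unfold BADB_E
    simp
  | succ k ih =>
    intro S hS hJ
    obtain ⟨S', hS', l, hl, rfl⟩ := BADB_last k _ _ hS
    obtain ⟨hlS, hlu⟩ := BADB_add hl
    rw [BADB_E_step t m k S' l hl]
    have htb : (0 : ℤ) ≤ tb t l.1 := Int.natCast_nonneg _
    have hlnot : l ∉ move 1 S' l := by
      rw [BADB_mem]
      rintro (h | h)
      · have := congrArg Prod.snd h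
        simp only at this
        omega
      · exact h.1 rfl
    have e1 : m ≤ l.2 + J := by
      by_contra hlt
      exact hlnot (hJ l.1 l.2 (by omega))
    have e2 : ∀ (s : Bool) (p : ℕ), p + J < m → (s, p) ∈ S' := by
      intro s p hp
      rcases BADB_mem.1 (hJ s p hp) with h3 | h3
      · exfalso
        have h5 : p = l.2 + 1 := congrArg Prod.snd h3
        omega
      · exact h3.2
    have e3 := ih S' hS' e2
    have e4 : (m : ℤ) ≤ l.2 + J := by exact_mod_cast e1
    push_cast at e3 ⊢
    nlinarith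

theorem BADB : BADB_stmt := by
  intro t m k J1 S hS hk hb
  have hk' : (4 : ℤ) * J1 ≤ k := by exact_mod_cast hk
  have hE : 2 * ((J1 : ℤ) * (k - J1)) ≤ BADB_E t m k S := by
    by_cases hA : ∀ (s : Bool) (p : ℕ), p + J1 < m → (s, p) ∈ S
    · have := BADB_low t m J1 k S hS hA
      have hk0 : (0 : ℤ) ≤ k := Int.natCast_nonneg _
      have hJ0 : (0 : ℤ) ≤ J1 := Int.natCast_nonneg _
      nlinarith [mul_nonneg hk0 (sub_nonneg.2 hk')]
    · push Not at hA
      obtain ⟨s, p, hp, hnot⟩ := hA
      have hex : ∃ p, (s, p) ∉ S := ⟨p, hnot⟩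
      classical
      have h1 := Nat.find_spec hex
      have h2 : ∀ q < Nat.find hex, (s, q) ∈ S := fun q hq => not_not.1 (Nat.find_min hex hq)
      have h3 : Nat.find hex ≤ p := Nat.find_min' hex hnot
      set h := Nat.find hex with hh
      have h4 : m + J1 ≤ h + k := by
        by_contra hlt
        exact h1 (hb s h (by omega))
      have h5 := BADB_one t m k S hS s h h1 h2
      have h6 : (J1 : ℤ) ≤ m - h := by
        have : h + J1 < m := by omega
        have : (h : ℤ) + J1 < m := by exact_mod_cast this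
        linarith
      have h7 : (m : ℤ) + J1 ≤ h + k := by exact_mod_cast h4
      nlinarith [mul_nonneg (sub_nonneg.2 h6) (show (0 : ℤ) ≤ k - (m - h) - J1 by linarith)]
  unfold BADB_E at hE
  unfold e1
  have h8 : ((J1 * (k - J1) : ℕ) : ℤ) = (J1 : ℤ) * (k - J1) := by
    rw [Nat.cast_mul, Nat.cast_sub (by omega)]
  have h9 : ((J1 * (k - J1) : ℕ) : ℤ) ≤ ((k : ℤ) * (k - 1) + pt t m S - pt t m (vac m)) / 2 := by
    rw [h8]
    omega
  omega

end Pool.Agent.PN
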